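import Mathlib
import Pool.Agent.TH278.DX.Defs2
set_option autoImplicit false

namespace Pool.Agent.TH113.J4949

theorem excessive {G : Type} [Group G] (F : G →₀ ℝ) (hF : ∀ g, 0 ≤ F g)
    (hsym : ∀ g, F g⁻¹ = F g) (T : lp (fun _ : G => ℝ) 2 →L[ℝ] lp (fun _ : G => ℝ) 2) (δ : ℝ)
    (hδ : 0 < δ) (hT : ‖T‖ ≤ δ)
    (hTF : ∀ (u : lp (fun _ : G => ℝ) 2) (s : G), T u s = F.sum fun g r => r * u (s * g)) :
    ∃ h : G → ℝ, (∀ s, 0 < h s) ∧ ∀ s, (F.sum fun g r => r * h (s * g)) ≤ 2 * δ * h s := by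
  classical
  obtain ⟨u, hu0, hu1⟩ : ∃ u : ℕ → lp (fun _ : G => ℝ) 2, u 0 = lp.single 2 (1 : G) (1 : ℝ) ∧
      ∀ n, u (n + 1) = T (u n) :=
    ⟨fun n => (fun v => T v)^[n] (lp.single 2 (1 : G) (1 : ℝ)), rfl,
      fun n => Function.iterate_succ_apply' _ n _⟩
  have hTF' : ∀ n (s : G), u (n + 1) s = ∑ g ∈ F.support, F g * u n (s * g) := by
    intro n s
    rw [hu1, hTF]
    rfl
  -- positivity
  have hnn : ∀ n (s : G), 0 ≤ u n s := by
    intro n
    induction n with
    | zero =>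
      intro s
      rw [hu0, lp.single_apply]
      by_cases h : s = 1
      · subst h; simp
      · rw [Pi.single_eq_of_ne h]
    | succ n ih =>
      intro s
      rw [hTF']
      exact Finset.sum_nonneg fun g _ => mul_nonneg (hF g) (ih _)
  -- norms
  have hnorm : ∀ n, ‖u n‖ ≤ δ ^ n := by
    intro n
    induction n with
    | zero =>
      rw [hu0, pow_zero, lp.norm_single (by norm_num)]
      simp
    | succ n ih =>
      rw [hu1, pow_succ']
      exact (T.le_opNorm _).trans (mul_le_mul hT ih (norm_nonneg _) hδ.le)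
  obtain ⟨c, hc⟩ : ∃ c : ℝ, c = (2 * δ)⁻¹ := ⟨_, rfl⟩
  have hc0 : 0 < c := by rw [hc]; positivity
  have hcδ : 2 * δ * c = 1 := by rw [hc]; field_simp
  have hcδ' : c * δ = 1 / 2 := by linarith
  have hterm : ∀ n (s : G), 0 ≤ c ^ n * u n s := fun n s => mul_nonneg (pow_nonneg hc0.le _) (hnn n s)
  have hbound : ∀ n (s : G), c ^ n * u n s ≤ (1 / 2) ^ n := by
    intro n s
    have h1 : u n s ≤ δ ^ n := by
      have h2 := lp.norm_apply_le_norm (by norm_num : (2 : ENNReal) ≠ 0) (u n) s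
      rw [Real.norm_of_nonneg (hnn n s)] at h2
      exact h2.trans (hnorm n)
    calc c ^ n * u n s ≤ c ^ n * δ ^ n := mul_le_mul_of_nonneg_left h1 (pow_nonneg hc0.le _)
      _ = (1 / 2) ^ n := by rw [← mul_pow, hcδ']
  have hsum : ∀ s : G, Summable fun n => c ^ n * u n s := fun s =>
    Summable.of_nonneg_of_le (fun n => hterm n s) (fun n => hbound n s)
      (summable_geometric_of_lt_one (by norm_num) (by norm_num))
  obtain ⟨h0, hh0⟩ : ∃ h0 : G → ℝ, ∀ s, h0 s = ∑' n, c ^ n * u n s := ⟨_, fun _ => rfl⟩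
  -- the inequality
  have hineq : ∀ s, ∑ g ∈ F.support, F g * h0 (s * g) ≤ 2 * δ * h0 s := by
    intro s
    have e1 : ∑ g ∈ F.support, F g * h0 (s * g) = ∑' n, c ^ n * u (n + 1) s := by
      have e2 : ∀ g ∈ F.support, F g * h0 (s * g) = ∑' n, F g * (c ^ n * u n (s * g)) := by
        intro g _
        rw [hh0, tsum_mul_left]
      rw [Finset.sum_congr rfl e2, ← Summable.tsum_finsetSum fun g _ => (hsum (s * g)).mul_left _]
      refine tsum_congr fun n => ?_
      rw [hTF', Finset.mul_sum]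
      refine Finset.sum_congr rfl fun g _ => ?_
      ring
    have e3 : h0 s = c ^ 0 * u 0 s + ∑' n, c ^ (n + 1) * u (n + 1) s := by
      rw [hh0, (hsum s).tsum_eq_zero_add]
    have e4 : ∑' n, c ^ n * u (n + 1) s = 2 * δ * ∑' n, c ^ (n + 1) * u (n + 1) s := by
      rw [← tsum_mul_left]
      refine tsum_congr fun n => ?_
      rw [pow_succ]
      linear_combination (-(c ^ n * u (n + 1) s)) * hcδ
    rw [e1, e4, e3, mul_add]
    have h5 : 0 ≤ 2 * δ * (c ^ 0 * u 0 s) := mul_nonneg (by positivity) (hterm 0 s)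
    linarith
  -- positivity on the subgroup
  obtain ⟨S, hS⟩ : ∃ S : Subgroup G, S = Subgroup.closure (F.support : Set G) := ⟨_, rfl⟩
  have hpos1 : ∀ s ∈ S, ∃ n, 0 < u n s := by
    have hstep : ∀ s g : G, g ∈ F.support → (∃ n, 0 < u n s) → ∃ n, 0 < u n (s * g⁻¹) := by
      rintro s g hg ⟨n, hn⟩
      refine ⟨n + 1, ?_⟩
      rw [hTF']
      refine Finset.sum_pos' (fun g' _ => mul_nonneg (hF g') (hnn _ _)) ⟨g, hg, ?_⟩
      rw [inv_mul_cancel_right]
      exact mul_pos (lt_of_le_of_ne (hF g) (Finsupp.mem_support_iff.1 hg).symm) hn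
    have hsupp : ∀ g : G, g ∈ F.support → g⁻¹ ∈ F.support := by
      intro g hg
      rw [Finsupp.mem_support_iff] at hg ⊢
      rwa [hsym]
    intro s hs
    rw [hS] at hs
    induction hs using Subgroup.closure_induction_right with
    | one =>
      refine ⟨0, ?_⟩
      rw [hu0, lp.single_apply_self]
      exact one_pos
    | mul_right x _ y hy ih =>
      have := hstep x y⁻¹ (hsupp y (Finset.mem_coe.1 hy)) ih
      rwa [inv_inv] at this
    | mul_inv_cancel x _ y hy ih => exact hstep x y (Finset.mem_coe.1 hy) ih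
  have hpos : ∀ s ∈ S, 0 < h0 s := by
    intro s hs
    obtain ⟨n, hn⟩ := hpos1 s hs
    rw [hh0]
    exact (hsum s).tsum_pos (fun n => hterm n s) n (mul_pos (pow_pos hc0 n) hn)
  -- the function
  refine ⟨fun s => h0 ((Quotient.out (QuotientGroup.mk s : G ⧸ S))⁻¹ * s), fun s => ?_, fun s => ?_⟩
  · apply hpos
    exact QuotientGroup.leftRel_apply.mp (Quotient.exact (Quotient.out_eq _))
  · have h1 := hineq ((Quotient.out (QuotientGroup.mk s : G ⧸ S))⁻¹ * s)
    refine le_trans (le_of_eq ?_) h1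
    show ∑ g ∈ F.support, F g * h0 ((Quotient.out (QuotientGroup.mk (s * g) : G ⧸ S))⁻¹ * (s * g)) = _
    refine Finset.sum_congr rfl fun g hg => ?_
    have hgS : g ∈ S := by
      rw [hS]
      exact Subgroup.subset_closure hg
    have h2 : (QuotientGroup.mk (s * g) : G ⧸ S) = QuotientGroup.mk s :=
      QuotientGroup.mk_mul_of_mem s hgS
    rw [h2, mul_assoc]

end Pool.Agent.TH113.J4949
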